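import Pool.Agent.VM.Stmts

/-! TRA: translation of the variable. -/

set_option autoImplicit false

namespace Pool.Agent.VM.H35

open Pool.Agent.Helper69_Weyl (ee ee_add ee_int norm_ee)

/-- the linear map of the coefficients -/
def Lt (k : ℕ) (c : ℤ) : (Fin k → ℤ) →+ (Fin k → ℤ) where
  toFun ζ := fun i => ∑ j : Fin k, ζ j *
    ((((j : ℕ) + 1).choose ((i : ℕ) + 1) : ℕ) : ℤ) * c ^ ((j : ℕ) - (i : ℕ))
  map_zero' := by
    funext i
    simp
  map_add' ζ η := by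
    funext i
    simp only [Pi.add_apply]
    rw [← Finset.sum_add_distrib]
    exact Finset.sum_congr rfl fun j _ => by ring

theorem Lt_apply (k : ℕ) (c : ℤ) (ζ : Fin k → ℤ) (i : Fin k) : Lt k c ζ i =
    ∑ j : Fin k, ζ j * ((((j : ℕ) + 1).choose ((i : ℕ) + 1) : ℕ) : ℤ) * c ^ ((j : ℕ) - (i : ℕ)) :=
  rfl

/-- injectivity modulo `q` -/
theorem Lt_inj (q k : ℕ) (c : ℤ) (ζ : Fin k → ℤ) (h : ∀ i, (q : ℤ) ∣ Lt k c ζ i) :
    ∀ j, (q : ℤ) ∣ ζ j := by
  have key : ∀ n : ℕ, ∀ i : Fin k, k ≤ (i : ℕ) + n → (q : ℤ) ∣ ζ i := by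
    intro n
    induction n with
    | zero =>
      intro i hi
      have := i.2
      omega
    | succ n ih =>
      intro i hi
      have h1 := h i
      rw [Lt_apply, ← Finset.add_sum_erase _ _ (Finset.mem_univ i)] at h1
      have h2 : (q : ℤ) ∣ ∑ j ∈ Finset.univ.erase i, ζ j *
          ((((j : ℕ) + 1).choose ((i : ℕ) + 1) : ℕ) : ℤ) * c ^ ((j : ℕ) - (i : ℕ)) := by
        refine Finset.dvd_sum fun j hj => ?_
        have hne : j ≠ i := Finset.ne_of_mem_erase hj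
        rcases lt_trichotomy (j : ℕ) (i : ℕ) with hlt | heq | hgt
        · rw [Nat.choose_eq_zero_of_lt (by omega)]
          simp
        · exact absurd (Fin.ext heq) hne
        · exact Dvd.dvd.mul_right (Dvd.dvd.mul_right (ih j (by omega)) _) _
      have h3 := (Int.dvd_add_left h2).1 h1
      rwa [Nat.choose_self, Nat.sub_self, pow_zero, Nat.cast_one, mul_one, mul_one] at h3
  intro j
  exact key k j (by omega)

/-- the binomial identity -/
theorem pow_shift (k : ℕ) (c x : ℤ) (j : Fin k) : x ^ ((j : ℕ) + 1) = c ^ ((j : ℕ) + 1) +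
    ∑ i : Fin k, ((((j : ℕ) + 1).choose ((i : ℕ) + 1) : ℕ) : ℤ) * c ^ ((j : ℕ) - (i : ℕ)) *
      (x - c) ^ ((i : ℕ) + 1) := by
  have h1 : x ^ ((j : ℕ) + 1) = ((x - c) + c) ^ ((j : ℕ) + 1) := by ring
  rw [h1, add_pow, Finset.sum_range_succ']
  rw [Fin.sum_univ_eq_sum_range (fun i => ((((j : ℕ) + 1).choose (i + 1) : ℕ) : ℤ) *
    c ^ ((j : ℕ) - i) * (x - c) ^ (i + 1)) k]
  have h2 : Finset.range ((j : ℕ) + 1) ⊆ Finset.range k := by
    intro a ha
    have := j.2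
    simp only [Finset.mem_range] at ha ⊢
    omega
  have h3 : ∀ i ∈ Finset.range k, i ∉ Finset.range ((j : ℕ) + 1) →
      ((((j : ℕ) + 1).choose (i + 1) : ℕ) : ℤ) * c ^ ((j : ℕ) - i) * (x - c) ^ (i + 1) = 0 := by
    intro i _ hi
    simp only [Finset.mem_range, not_lt] at hi
    rw [Nat.choose_eq_zero_of_lt (by omega)]
    simp
  rw [← Finset.sum_subset h2 h3]
  rw [add_comm]
  congr 1
  · simp
  · refine Finset.sum_congr rfl fun i hi => ?_
    simp only [Finset.mem_range] at hi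
    rw [show (j : ℕ) + 1 - (i + 1) = (j : ℕ) - i from by omega]
    ring

/-- the phase after the translation -/
theorem phase (k : ℕ) (c x : ℤ) (ζ : Fin k → ℤ) : ∑ j, ζ j * mc 0 k j x =
    ∑ j : Fin k, ζ j * c ^ ((j : ℕ) + 1) + ∑ i, Lt k c ζ i * mc 0 k i (x - c) := by
  have h1 : ∀ j : Fin k, ζ j * mc 0 k j x = ζ j * c ^ ((j : ℕ) + 1) +
      ∑ i : Fin k, ζ j * ((((j : ℕ) + 1).choose ((i : ℕ) + 1) : ℕ) : ℤ) *
        c ^ ((j : ℕ) - (i : ℕ)) * (x - c) ^ ((i : ℕ) + 1) := by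
    intro j
    show ζ j * x ^ (0 + (j : ℕ) + 1) = _
    rw [Nat.zero_add, pow_shift k c x j, mul_add, Finset.mul_sum]
    congr 1
    exact Finset.sum_congr rfl fun i _ => by ring
  rw [Finset.sum_congr rfl fun j _ => h1 j, Finset.sum_add_distrib, Finset.sum_comm]
  congr 1
  refine Finset.sum_congr rfl fun i _ => ?_
  rw [Lt_apply, Finset.sum_mul]
  refine Finset.sum_congr rfl fun j _ => ?_
  show _ = _ * (x - c) ^ (0 + (i : ℕ) + 1)
  rw [Nat.zero_add]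

/-- the exponential sum after the translation -/
theorem G_tr (q k : ℕ) (c : ℤ) (s : Finset ℤ) (w : ℤ → ℂ) (ζ : Fin k → ℤ) :
    G q (mc 0 k) s w ζ = ee (((∑ j : Fin k, ζ j * c ^ ((j : ℕ) + 1) : ℤ) : ℝ) / (q : ℝ)) *
      G q (mc 0 k) (tr c s) (tw c w) (Lt k c ζ) := by
  unfold G tr tw
  rw [Finset.sum_image (fun x _ y _ h => by simpa using h), Finset.mul_sum]
  refine Finset.sum_congr rfl fun x _ => ?_
  rw [phase k c x ζ, Int.cast_add, add_div, ee_add, sub_add_cancel]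
  ring

theorem norm_G_tr (q k : ℕ) (c : ℤ) (s : Finset ℤ) (w : ℤ → ℂ) (ζ : Fin k → ℤ) :
    ‖G q (mc 0 k) s w ζ‖ = ‖G q (mc 0 k) (tr c s) (tw c w) (Lt k c ζ)‖ := by
  rw [G_tr q k c s w ζ, norm_mul, norm_ee, one_mul]

/-- periodicity -/
theorem G_per (q l : ℕ) (E : Fin l → ℤ → ℤ) (s : Finset ℤ) (w : ℤ → ℂ) (hq : 0 < q)
    (ζ v : Fin l → ℤ) : G q E s w (fun j => ζ j + (q : ℤ) * v j) = G q E s w ζ := by
  unfold G
  refine Finset.sum_congr rfl fun x _ => ?_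
  have h1 : ∑ j, (ζ j + (q : ℤ) * v j) * E j x = ∑ j, ζ j * E j x + (q : ℤ) * ∑ j, v j * E j x := by
    rw [Finset.mul_sum, ← Finset.sum_add_distrib]
    exact Finset.sum_congr rfl fun j _ => by ring
  have hq' : (q : ℝ) ≠ 0 := by
    exact_mod_cast hq.ne'
  have h2 : (((∑ j, (ζ j + (q : ℤ) * v j) * E j x : ℤ)) : ℝ) / (q : ℝ) =
      ((∑ j, ζ j * E j x : ℤ) : ℝ) / (q : ℝ) + ((∑ j, v j * E j x : ℤ) : ℝ) := by
    rw [h1, Int.cast_add, add_div, Int.cast_mul, Int.cast_natCast,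
      mul_div_cancel_left₀ _ hq']
  rw [h2, ee_add, ee_int, mul_one]

theorem tra (avb : AvbStmt) : TraStmt := by
  intro q k c s s' w w' i j hq
  have h := avb q k (fun ζ => ‖G q (mc 0 k) (tr c s) (tw c w) ζ‖ ^ i *
    ‖G q (mc 0 k) (tr c s') (tw c w') ζ‖ ^ j) (Lt k c) hq ?_ (fun ζ h => Lt_inj q k c ζ h)
  · rw [← h]
    congr 1
    funext ζ
    rw [norm_G_tr q k c s w ζ, norm_G_tr q k c s' w' ζ]
  · intro ζ v
    show ‖G q (mc 0 k) (tr c s) (tw c w) (fun j => ζ j + (q : ℤ) * v j)‖ ^ i *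
      ‖G q (mc 0 k) (tr c s') (tw c w') (fun j => ζ j + (q : ℤ) * v j)‖ ^ j = _
    rw [G_per q k _ _ _ hq, G_per q k _ _ _ hq]

end Pool.Agent.VM.H35
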